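import Pool.Agent.W16.FX.Defs

set_option autoImplicit false

/-! Task FX-DET. -/

namespace Pool.Agent.W118.FX

open Finset Pool.Agent.W16.FX

theorem det_bound {n : ℕ} (A : Matrix (Fin n) (Fin n) ℝ) (b : Fin n → ℝ)
    (h : ∀ i j, |A i j| ≤ b j) : |A.det| ≤ (n.factorial : ℝ) * ∏ j, b j := by
  rw [Matrix.det_apply]
  refine (Finset.abs_sum_le_sum_abs _ _).trans ?_
  have h1 : ∀ σ ∈ (Finset.univ : Finset (Equiv.Perm (Fin n))),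
      |Equiv.Perm.sign σ • ∏ i, A (σ i) i| ≤ ∏ j, b j := by
    intro σ _
    have h2 : |Equiv.Perm.sign σ • ∏ i, A (σ i) i| = ∏ i, |A (σ i) i| := by
      rw [← Finset.abs_prod]
      rcases Int.units_eq_one_or (Equiv.Perm.sign σ) with hs | hs <;> simp [hs]
    rw [h2]
    exact Finset.prod_le_prod (fun i _ => abs_nonneg _) fun i _ => h _ _
  refine (Finset.sum_le_card_nsmul _ _ _ h1).trans ?_
  rw [Finset.card_univ, Fintype.card_perm, Fintype.card_fin, nsmul_eq_mul]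

theorem det4 {R : Type*} [CommRing R] (a b c d : Fin 4 → R) :
    Matrix.det (Matrix.of ![a, b, c, d]) =
      a 0 * (b 1 * (c 2 * d 3 - c 3 * d 2) - b 2 * (c 1 * d 3 - c 3 * d 1) +
          b 3 * (c 1 * d 2 - c 2 * d 1)) -
      a 1 * (b 0 * (c 2 * d 3 - c 3 * d 2) - b 2 * (c 0 * d 3 - c 3 * d 0) +
          b 3 * (c 0 * d 2 - c 2 * d 0)) +
      a 2 * (b 0 * (c 1 * d 3 - c 3 * d 1) - b 1 * (c 0 * d 3 - c 3 * d 0) +
          b 3 * (c 0 * d 1 - c 1 * d 0)) -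
      a 3 * (b 0 * (c 1 * d 2 - c 2 * d 1) - b 1 * (c 0 * d 2 - c 2 * d 0) +
          b 2 * (c 0 * d 1 - c 1 * d 0)) := by
  simp [Matrix.det_succ_row_zero, Fin.sum_univ_succ, Fin.succAbove, Matrix.submatrix]
  ring

/-- the row `(A, s, B, 1)` up to the factors -/
def row (w κ τ τi x A' B' : ℝ) : Fin 4 → ℝ :=
  ![w * κ * τi ^ 2 * (A' + 1 - 2 * x), w * τ * (1 + x), w * κ * τi ^ 3 * (B' + 2 * A' - 3 * x + 1), w]

theorem det_row (κ τ τi : ℝ) (w x A B : Fin 4 → ℝ) :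
    Matrix.det (Matrix.of ![row (w 0) κ τ τi (x 0) (A 0) (B 0), row (w 1) κ τ τi (x 1) (A 1) (B 1),
      row (w 2) κ τ τi (x 2) (A 2) (B 2), row (w 3) κ τ τi (x 3) (A 3) (B 3)]) =
    w 0 * w 1 * w 2 * w 3 * κ ^ 2 * τi ^ 5 * τ *
      Matrix.det (Matrix.of ![![A 0, x 0, B 0, 1], ![A 1, x 1, B 1, 1], ![A 2, x 2, B 2, 1],
        ![A 3, x 3, B 3, 1]]) := by
  rw [det4, det4]
  simp only [row, Matrix.cons_val]
  ring

/-- the shape of the vectors -/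
theorem vec_eq {M N u τ x p p' q q' : ℝ} (hM : 0 < M) (hN : 0 < N) (hτ : 0 < τ) (hx : 0 ≤ x)
    (hp' : 0 < p') (hq' : 0 < q') (hp : p = τ * (1 + x) * p')
    (heq : M * q * p ^ 3 + u = N * q' * p' ^ 3) (A B : ℝ)
    (hA : A = (1 - u / (N * q' * p' ^ 3)) / (1 + x) ^ 2 - 1 + 2 * x)
    (hB : B = (1 - u / (N * q' * p' ^ 3)) / (1 + x) ^ 3 -
      2 * ((1 - u / (N * q' * p' ^ 3)) / (1 + x) ^ 2) + 1 - x) :
    (![p * q, p * q', p' * q, p' * q'] : Fin 4 → ℝ) =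
      row (p' * q') (N / M) τ τ⁻¹ x A B := by
  have hs : 0 < 1 + x := by linarith
  have hq : q = (N * q' * p' ^ 3 - u) / (M * (τ * (1 + x) * p') ^ 3) := by
    have : M * (τ * (1 + x) * p') ^ 3 ≠ 0 := by positivity
    rw [eq_div_iff this, ← hp]
    linarith
  have e1 : p * q = p' * q' * (N / M) * τ⁻¹ ^ 2 * (A + 1 - 2 * x) := by
    rw [hA, hq, hp]
    field_simp
    ring
  have e3 : p' * q = p' * q' * (N / M) * τ⁻¹ ^ 3 * (B + 2 * A - 3 * x + 1) := by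
    rw [hB, hA, hq]
    field_simp
    ring
  have e2 : p * q' = p' * q' * τ * (1 + x) := by
    rw [hp]
    ring
  unfold row
  rw [e1, e2, e3]

theorem A_bound {x θ L Θ : ℝ} (hx : 0 ≤ x) (hxL : x ≤ L) (hL : L ≤ 1) (hθ : 0 ≤ θ) (hθ' : θ ≤ Θ) :
    |(1 - θ) / (1 + x) ^ 2 - 1 + 2 * x| ≤ 5 * L ^ 2 + Θ := by
  have hs : 0 < 1 + x := by linarith
  have e : (1 - θ) / (1 + x) ^ 2 - 1 + 2 * x = (3 * x ^ 2 + 2 * x ^ 3 - θ) / (1 + x) ^ 2 := by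
    field_simp
    ring
  have h1 : (1 : ℝ) ≤ (1 + x) ^ 2 := by nlinarith
  have h2 : x ^ 2 ≤ L ^ 2 := pow_le_pow_left₀ hx hxL 2
  have h3 : x ^ 3 ≤ x ^ 2 := by nlinarith [pow_nonneg hx 2]
  rw [e, abs_div, abs_of_pos (by positivity : (0:ℝ) < (1 + x) ^ 2)]
  have h4 : |3 * x ^ 2 + 2 * x ^ 3 - θ| ≤ 5 * L ^ 2 + Θ := by
    rw [abs_le]
    constructor
    · nlinarith [pow_nonneg hx 2, pow_nonneg hx 3, sq_nonneg L]
    · nlinarith [pow_nonneg hx 2, pow_nonneg hx 3]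
  exact (div_le_self (abs_nonneg _) h1).trans h4

theorem B_bound {x θ L Θ : ℝ} (hx : 0 ≤ x) (hxL : x ≤ L) (hL : L ≤ 1) (hθ : 0 ≤ θ) (hθ' : θ ≤ Θ) :
    |(1 - θ) / (1 + x) ^ 3 - 2 * ((1 - θ) / (1 + x) ^ 2) + 1 - x| ≤ 3 * L ^ 3 + Θ := by
  have hs : 0 < 1 + x := by linarith
  have e : (1 - θ) / (1 + x) ^ 3 - 2 * ((1 - θ) / (1 + x) ^ 2) + 1 - x =
      (-(2 * x ^ 3 + x ^ 4) + θ * (1 + 2 * x)) / (1 + x) ^ 3 := by
    field_simp
    ring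
  have h0 : (0:ℝ) < (1 + x) ^ 3 := by positivity
  have h1 : (1 : ℝ) ≤ (1 + x) ^ 3 := by nlinarith [pow_nonneg hx 2, pow_nonneg hx 3]
  have h2 : x ^ 3 ≤ L ^ 3 := pow_le_pow_left₀ hx hxL 3
  have h3 : x ^ 4 ≤ x ^ 3 := by nlinarith [pow_nonneg hx 3]
  have hΘ : 0 ≤ Θ := hθ.trans hθ'
  have hL0 : 0 ≤ L := hx.trans hxL
  have h5 : θ * (1 + 2 * x) ≤ Θ * (1 + x) ^ 3 := by
    have h6 : 1 + 2 * x ≤ (1 + x) ^ 3 := by nlinarith [pow_nonneg hx 2, pow_nonneg hx 3]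
    exact mul_le_mul hθ' h6 (by linarith) hΘ
  have h7 : 2 * x ^ 3 + x ^ 4 ≤ 3 * L ^ 3 * (1 + x) ^ 3 := by
    have : 3 * L ^ 3 ≤ 3 * L ^ 3 * (1 + x) ^ 3 := le_mul_of_one_le_right (by positivity) h1
    nlinarith [pow_nonneg hx 3]
  rw [e, abs_div, abs_of_pos h0, div_le_iff₀ h0, abs_le]
  have h8 : 0 ≤ θ * (1 + 2 * x) := by positivity
  have h9 : 0 ≤ 2 * x ^ 3 + x ^ 4 := by positivity
  have h10 : 0 ≤ 3 * L ^ 3 * (1 + x) ^ 3 := by positivity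
  have h11 : 0 ≤ Θ * (1 + x) ^ 3 := by positivity
  constructor
  · nlinarith
  · nlinarith

/-- the final numerical estimate -/
theorem num {u c g y lam L Θ : ℝ} (hu : 1 ≤ u) (hc : 0 < c) (hg : 1 ≤ g) (hy : 1 ≤ y)
    (hlam : lam = 1 / (2 ^ 110 * u ^ 2)) (hL : L = lam / (g ^ 2 * y)) (hΘ : Θ = 65536 * u / c)
    (hY : y ^ 3 ≤ c * g) :
    24 * 2 ^ 70 * ((5 * L ^ 2 + Θ) * L * (3 * L ^ 3 + Θ)) * y ^ 6 < 1 := by
  have hu0 : 0 < u := by linarith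
  have hg0 : 0 < g := by linarith
  have hy0 : 0 < y := by linarith
  have hlam0 : 0 < lam := by rw [hlam]; positivity
  have hlam1 : lam ≤ 1 := by
    rw [hlam, div_le_one (by positivity)]
    nlinarith
  set h : ℝ := 65536 * u with hh
  set H : ℝ := Θ * y ^ 3 with hH
  set z : ℝ := L * y with hz
  have hΘ0 : 0 < Θ := by rw [hΘ]; positivity
  have hH0 : 0 < H := by positivity
  have hL0 : 0 < L := by rw [hL]; positivity
  have hz0 : 0 < z := by positivity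
  have hz1 : z * g ^ 2 = lam := by
    rw [hz, hL]
    field_simp
  have hg2 : 1 ≤ g ^ 2 := one_le_pow₀ hg
  have hzlam : z ≤ lam := by nlinarith
  have hHle : H ≤ h * g := by
    rw [hH, hΘ, div_mul_eq_mul_div, div_le_iff₀ hc]
    calc h * y ^ 3 ≤ h * (c * g) := by
          apply mul_le_mul_of_nonneg_left hY
          positivity
      _ = h * g * c := by ring
  have hLz : L ≤ z := by
    rw [hz]
    exact le_mul_of_one_le_right hL0.le hy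
  have hL1 : L ≤ 1 := by linarith
  have hz1' : z ≤ 1 := by linarith
  have hz3 : z ^ 3 ≤ z := by
    have : z ^ 3 ≤ z ^ 1 := pow_le_pow_of_le_one hz0.le hz1' (by norm_num)
    simpa using this
  have hz6 : z ^ 6 ≤ z := by
    have : z ^ 6 ≤ z ^ 1 := pow_le_pow_of_le_one hz0.le hz1' (by norm_num)
    simpa using this
  have hzH : z * H ≤ lam * h := by
    have h1 : z * H ≤ z * (h * g) := mul_le_mul_of_nonneg_left hHle hz0.le
    have h2 : z * (h * g) ≤ lam * h := by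
      rw [← hz1]
      have : g ≤ g ^ 2 := by nlinarith
      have h3 : 0 ≤ z * h := by positivity
      nlinarith
    linarith
  have hzHH : z * H ^ 2 ≤ lam * h ^ 2 := by
    have h1 : H ^ 2 ≤ (h * g) ^ 2 := pow_le_pow_left₀ hH0.le hHle 2
    have h2 : z * H ^ 2 ≤ z * (h * g) ^ 2 := mul_le_mul_of_nonneg_left h1 hz0.le
    have h3 : z * (h * g) ^ 2 = lam * h ^ 2 := by
      rw [← hz1]
      ring
    linarith
  have hkey : (5 * L ^ 2 + Θ) * L * (3 * L ^ 3 + Θ) * y ^ 6 =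
      15 * z ^ 6 + 5 * (z ^ 3 * H) + 3 * (L * z ^ 3 * H) + L * H ^ 2 := by
    rw [hz, hH]
    ring
  have t1 : 15 * z ^ 6 ≤ 15 * lam := by linarith
  have t2 : z ^ 3 * H ≤ lam * h := (mul_le_mul_of_nonneg_right hz3 hH0.le).trans hzH
  have t3 : L * z ^ 3 * H ≤ lam * h := by
    have h1 : L * z ^ 3 ≤ z ^ 3 := mul_le_of_le_one_left (by positivity) hL1
    have h2 : L * z ^ 3 * H ≤ z ^ 3 * H := mul_le_mul_of_nonneg_right h1 hH0.le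
    linarith
  have t4 : L * H ^ 2 ≤ lam * h ^ 2 :=
    (mul_le_mul_of_nonneg_right hLz (by positivity)).trans hzHH
  have hsum : (5 * L ^ 2 + Θ) * L * (3 * L ^ 3 + Θ) * y ^ 6 ≤ lam * (15 + 8 * h + h ^ 2) := by
    rw [hkey]
    linarith
  have hsum2 : lam * (15 + 8 * h + h ^ 2) ≤ lam * (2 ^ 33 * u ^ 2) := by
    apply mul_le_mul_of_nonneg_left _ hlam0.le
    rw [hh]
    nlinarith
  have hfin : lam * (2 ^ 33 * u ^ 2) = 1 / 2 ^ 77 := by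
    rw [hlam]
    field_simp
  have e : 24 * 2 ^ 70 * ((5 * L ^ 2 + Θ) * L * (3 * L ^ 3 + Θ)) * y ^ 6 =
      24 * 2 ^ 70 * ((5 * L ^ 2 + Θ) * L * (3 * L ^ 3 + Θ) * y ^ 6) := by ring
  rw [e]
  calc 24 * 2 ^ 70 * ((5 * L ^ 2 + Θ) * L * (3 * L ^ 3 + Θ) * y ^ 6)
      ≤ 24 * 2 ^ 70 * (1 / 2 ^ 77) := by
        apply mul_le_mul_of_nonneg_left _ (by norm_num)
        linarith
    _ < 1 := by norm_num

/-- the factor in front of the reduced determinant -/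
theorem front {M N τ u p p' q q' P P' Q Q' W : ℝ} (hM : 0 < M) (hN : 0 < N) (hτ : 0 < τ)
    (hp : 0 < p) (hp' : 0 < p') (hq : 0 < q) (hq' : 0 < q') (hP : 0 < P) (hP' : 0 < P')
    (hQ : 0 < Q) (hQ' : 0 < Q') (hW0 : 0 ≤ W) (hW : W ≤ (256 * (P' * Q')) ^ 4)
    (h1 : p ≤ 16 * P) (h2 : P' ≤ 16 * p') (h3 : q ≤ 16 * Q) (h4 : Q' ≤ 16 * q')
    (hτp : p ≤ 2 * τ * p') (heq : M * q * p ^ 3 + u = N * q' * p' ^ 3)
    (hθ : u ≤ N * q' * p' ^ 3 / 2) :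
    W * (N / M) ^ 2 * τ⁻¹ ^ 5 * τ ≤ 2 ^ 70 * (P * P' * Q * Q') ^ 2 := by
  have e1 : W * (N / M) ^ 2 * τ⁻¹ ^ 5 * τ = W * (N / M * τ⁻¹ ^ 2) ^ 2 := by
    field_simp
  have h5 : N / M * τ⁻¹ ^ 2 ≤ 8 * (q * p) / (q' * p') := by
    have h6 : N * q' * p' ^ 3 ≤ 2 * (M * q * p ^ 3) := by linarith
    have h7 : p ^ 2 ≤ (2 * τ * p') ^ 2 := pow_le_pow_left₀ hp.le hτp 2
    rw [inv_pow, ← div_eq_mul_inv, div_div, div_le_div_iff₀ (by positivity) (by positivity)]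
    have h8 : 0 < p ^ 2 * p' ^ 2 := by positivity
    have h9 : N * (q' * p') * (p ^ 2 * p' ^ 2) ≤ 8 * (q * p) * (M * τ ^ 2) * (p ^ 2 * p' ^ 2) := by
      calc N * (q' * p') * (p ^ 2 * p' ^ 2) = (N * q' * p' ^ 3) * p ^ 2 := by ring
        _ ≤ (2 * (M * q * p ^ 3)) * (2 * τ * p') ^ 2 :=
            mul_le_mul h6 h7 (by positivity) (by positivity)
        _ = 8 * (q * p) * (M * τ ^ 2) * (p ^ 2 * p' ^ 2) := by ring
    exact le_of_mul_le_mul_right h9 h8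
  have h10 : q * p * (Q' * P') ≤ 65536 * (Q * P) * (q' * p') := by
    calc q * p * (Q' * P') ≤ (16 * Q) * (16 * P) * ((16 * q') * (16 * p')) := by gcongr
      _ = 65536 * (Q * P) * (q' * p') := by ring
  have h11 : 8 * (q * p) / (q' * p') ≤ 8 * (65536 * (Q * P)) / (Q' * P') := by
    rw [div_le_div_iff₀ (by positivity) (by positivity)]
    linarith
  have h12 : (N / M * τ⁻¹ ^ 2) ^ 2 ≤ (8 * (65536 * (Q * P)) / (Q' * P')) ^ 2 :=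
    pow_le_pow_left₀ (by positivity) (h5.trans h11) 2
  rw [e1]
  calc W * (N / M * τ⁻¹ ^ 2) ^ 2 ≤ (256 * (P' * Q')) ^ 4 * (8 * (65536 * (Q * P)) / (Q' * P')) ^ 2 :=
        mul_le_mul hW h12 (by positivity) (by positivity)
    _ = 2 ^ 70 * (P * P' * Q * Q') ^ 2 := by
        field_simp
        norm_num

theorem red_bound {a b c A₁ x₁ B₁ A₂ x₂ B₂ A₃ x₃ B₃ A₄ x₄ B₄ : ℝ}
    (hA1 : |A₁| ≤ a) (hx1 : 0 ≤ x₁) (hx1' : x₁ ≤ b) (hB1 : |B₁| ≤ c)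
    (hA2 : |A₂| ≤ a) (hx2 : 0 ≤ x₂) (hx2' : x₂ ≤ b) (hB2 : |B₂| ≤ c)
    (hA3 : |A₃| ≤ a) (hx3 : 0 ≤ x₃) (hx3' : x₃ ≤ b) (hB3 : |B₃| ≤ c)
    (hA4 : |A₄| ≤ a) (hx4 : 0 ≤ x₄) (hx4' : x₄ ≤ b) (hB4 : |B₄| ≤ c) :
    |Matrix.det (Matrix.of ![![A₁, x₁, B₁, 1], ![A₂, x₂, B₂, 1], ![A₃, x₃, B₃, 1],
        ![A₄, x₄, B₄, 1]])| ≤ 24 * (a * b * c) := by
  have h1 : |x₁| ≤ b := by rwa [abs_of_nonneg hx1]
  have h2 : |x₂| ≤ b := by rwa [abs_of_nonneg hx2]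
  have h3 : |x₃| ≤ b := by rwa [abs_of_nonneg hx3]
  have h4 : |x₄| ≤ b := by rwa [abs_of_nonneg hx4]
  have h5 : |(1 : ℝ)| ≤ 1 := by simp
  have h := det_bound (Matrix.of ![![A₁, x₁, B₁, 1], ![A₂, x₂, B₂, 1], ![A₃, x₃, B₃, 1],
        ![A₄, x₄, B₄, 1]]) ![a, b, c, 1] (by
      intro i j
      fin_cases i <;> fin_cases j <;> assumption)
  refine h.trans (le_of_eq ?_)
  rw [Fin.prod_univ_four]
  simp only [Matrix.cons_val, Nat.factorial]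
  push_cast
  ring

theorem stmtDet : StmtDet := by
  intro u hu
  have huR : (1 : ℝ) ≤ (u : ℝ) := by exact_mod_cast hu
  have hlam0 : (0 : ℝ) < 1 / (2 ^ 110 * (u : ℝ) ^ 2) := by positivity
  refine ⟨1 / (2 ^ 110 * (u : ℝ) ^ 2), hlam0, ?_, ?_⟩
  · rw [div_le_one (by positivity)]
    nlinarith
  intro η M N hη hM hN s hs hprod hc17 T hT τ hτ hτT t₁ ht₁ t₂ ht₂ t₃ ht₃ t₄ ht₄
  set lam : ℝ := 1 / (2 ^ 110 * (u : ℝ) ^ 2) with hlam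
  have hMR : (0 : ℝ) < (M : ℝ) := by exact_mod_cast (by omega : 0 < M)
  have hNR : (0 : ℝ) < (N : ℝ) := by exact_mod_cast (by omega : 0 < N)
  have hP : (0 : ℝ) < (s.p : ℝ) := by exact_mod_cast hs.p_pos
  have hP' : (0 : ℝ) < (s.p' : ℝ) := by exact_mod_cast hs.p'_pos
  have hQ : (0 : ℝ) < (s.q : ℝ) := by exact_mod_cast hs.q_pos
  have hQ' : (0 : ℝ) < (s.q' : ℝ) := by exact_mod_cast hs.q'_pos
  set c : ℝ := (s.c N : ℝ) with hcdef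
  set Y : ℝ := (s.prod : ℝ) with hYdef
  have hcval : c = N * s.q' * s.p' ^ 3 := by
    rw [hcdef]
    unfold Quad.c
    push_cast
    ring
  have hYval : Y = s.p * s.p' * s.q * s.q' := by
    rw [hYdef]
    unfold Quad.prod
    push_cast
    ring
  have hc17R : (2 : ℝ) ^ 17 * u ≤ c := by
    rw [hcdef]
    exact_mod_cast hc17
  have hc0 : 0 < c := by nlinarith
  have hc1 : 1 ≤ c := by nlinarith
  have hY1 : 1 ≤ Y := by
    have : (1 : ℤ) ≤ s.prod := by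
      have h1 : 0 < s.prod := by
        unfold Quad.prod
        have := hs.p_pos
        have := hs.p'_pos
        have := hs.q_pos
        have := hs.q'_pos
        positivity
      omega
    rw [hYdef]
    exact_mod_cast this
  have hY0 : 0 < Y := by linarith
  -- the cube root and the power
  set y : ℝ := Y ^ (1 / 3 : ℝ) with hy
  set g : ℝ := c ^ η with hg
  have hy1 : 1 ≤ y := Real.one_le_rpow hY1 (by norm_num)
  have hg1 : 1 ≤ g := Real.one_le_rpow hc1 hη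
  have hy3 : y ^ 3 = Y := by
    rw [hy, ← Real.rpow_natCast, ← Real.rpow_mul hY0.le]
    norm_num
  have hyinv : Y ^ (-(1 / 3 : ℝ)) = y⁻¹ := by
    rw [Real.rpow_neg hY0.le]
  have hginv : c ^ (-2 * η) = (g ^ 2)⁻¹ := by
    rw [hg, ← Real.rpow_natCast, ← Real.rpow_mul hc0.le, ← Real.rpow_neg hc0.le]
    congr 1
    push_cast
    ring
  have hcg : c ^ (1 + η) = c * g := by
    rw [Real.rpow_add hc0, Real.rpow_one]
  rw [hcg] at hprod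
  set L : ℝ := lam * c ^ (-2 * η) * Y ^ (-(1 / 3 : ℝ)) with hLdef
  have hLval : L = lam / (g ^ 2 * y) := by
    rw [hLdef, hyinv, hginv]
    field_simp
  have hL0 : 0 < L := by
    rw [hLval]
    positivity
  have hlam1 : lam ≤ 1 := by
    rw [hlam, div_le_one (by positivity)]
    nlinarith
  have hL1 : L ≤ 1 := by
    rw [hLval, div_le_one (by positivity)]
    have : 1 ≤ g ^ 2 * y := one_le_mul_of_one_le_of_one_le (one_le_pow₀ hg1) hy1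
    linarith
  set Θ : ℝ := 65536 * u / c with hΘ
  have hΘ0 : 0 ≤ Θ := by positivity
  -- data for one member
  have hone : ∀ t ∈ T, ∃ x A B : ℝ, 0 ≤ x ∧ x ≤ L ∧ |A| ≤ 5 * L ^ 2 + Θ ∧ |B| ≤ 3 * L ^ 3 + Θ ∧
      (t.p : ℝ) ≤ 2 * τ * t.p' ∧ (u : ℝ) ≤ N * t.q' * t.p' ^ 3 / 2 ∧
      (![(t.p : ℝ) * t.q, (t.p : ℝ) * t.q', (t.p' : ℝ) * t.q, (t.p' : ℝ) * t.q'] : Fin 4 → ℝ) =
        row ((t.p' : ℝ) * t.q') (N / M) τ τ⁻¹ x A B := by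
    intro t ht
    obtain ⟨hsol, hnear⟩ := hT t ht
    obtain ⟨hτ1, hτ2⟩ := hτT t ht
    have hp : (0 : ℝ) < (t.p : ℝ) := by exact_mod_cast hsol.p_pos
    have hp' : (0 : ℝ) < (t.p' : ℝ) := by exact_mod_cast hsol.p'_pos
    have hq : (0 : ℝ) < (t.q : ℝ) := by exact_mod_cast hsol.q_pos
    have hq' : (0 : ℝ) < (t.q' : ℝ) := by exact_mod_cast hsol.q'_pos
    set x : ℝ := (t.p : ℝ) / t.p' / τ - 1 with hx
    have hx0 : 0 ≤ x := by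
      rw [hx, sub_nonneg, le_div_iff₀ hτ]
      linarith
    have hxL : x ≤ L := by
      rw [hx, sub_le_iff_le_add, div_le_iff₀ hτ]
      linarith
    have hpx : (t.p : ℝ) = τ * (1 + x) * t.p' := by
      rw [hx]
      field_simp
      ring
    have heq : (M : ℝ) * t.q * t.p ^ 3 + u = N * t.q' * t.p' ^ 3 := by
      exact_mod_cast hsol.eq
    have hct : c ≤ 65536 * ((N : ℝ) * (t.q' : ℝ) * (t.p' : ℝ) ^ 3) := by
      have h1 : (s.q' : ℝ) ≤ 16 * (t.q' : ℝ) := by exact_mod_cast hnear.q'_ge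
      have h2 : (s.p' : ℝ) ≤ 16 * (t.p' : ℝ) := by exact_mod_cast hnear.p'_ge
      rw [hcval]
      calc (N : ℝ) * (s.q' : ℝ) * (s.p' : ℝ) ^ 3
          ≤ (N : ℝ) * (16 * (t.q' : ℝ)) * (16 * (t.p' : ℝ)) ^ 3 := by gcongr
        _ = 65536 * ((N : ℝ) * (t.q' : ℝ) * (t.p' : ℝ) ^ 3) := by ring
    have hct0 : (0 : ℝ) < N * t.q' * t.p' ^ 3 := by positivity
    have hθ0 : 0 ≤ (u : ℝ) / (N * t.q' * t.p' ^ 3) := by positivity
    have hθΘ : (u : ℝ) / (N * t.q' * t.p' ^ 3) ≤ Θ := by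
      rw [hΘ, div_le_div_iff₀ hct0 hc0]
      nlinarith
    refine ⟨x, _, _, hx0, hxL, A_bound hx0 hxL hL1 hθ0 hθΘ, B_bound hx0 hxL hL1 hθ0 hθΘ, ?_, ?_,
      vec_eq hMR hNR hτ hx0 hp' hq' hpx heq _ _ rfl rfl⟩
    · rw [hpx]
      have : τ * (1 + x) ≤ 2 * τ := by nlinarith
      nlinarith
    · nlinarith
  obtain ⟨x₁, A₁, B₁, a1, a2, a3, a4, a5, a6, a7⟩ := hone t₁ ht₁
  obtain ⟨x₂, A₂, B₂, b1, b2, b3, b4, b5, b6, b7⟩ := hone t₂ ht₂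
  obtain ⟨x₃, A₃, B₃, c1, c2, c3, c4, c5, c6, c7⟩ := hone t₃ ht₃
  obtain ⟨x₄, A₄, B₄, d1, d2, d3, d4, d5, d6, d7⟩ := hone t₄ ht₄
  -- cast the determinant
  have hcast : ((Matrix.det (Matrix.of ![t₁.vec, t₂.vec, t₃.vec, t₄.vec]) : ℤ) : ℝ) =
      Matrix.det (Matrix.of ![
        (![(t₁.p : ℝ) * t₁.q, (t₁.p : ℝ) * t₁.q', (t₁.p' : ℝ) * t₁.q, (t₁.p' : ℝ) * t₁.q'] : Fin 4 → ℝ),
        ![(t₂.p : ℝ) * t₂.q, (t₂.p : ℝ) * t₂.q', (t₂.p' : ℝ) * t₂.q, (t₂.p' : ℝ) * t₂.q'],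
        ![(t₃.p : ℝ) * t₃.q, (t₃.p : ℝ) * t₃.q', (t₃.p' : ℝ) * t₃.q, (t₃.p' : ℝ) * t₃.q'],
        ![(t₄.p : ℝ) * t₄.q, (t₄.p : ℝ) * t₄.q', (t₄.p' : ℝ) * t₄.q, (t₄.p' : ℝ) * t₄.q']]) := by
    rw [det4, det4]
    unfold Quad.vec
    simp only [Matrix.cons_val]
    push_cast
    ring
  have hD := det_row (N / M : ℝ) τ τ⁻¹
    ![(t₁.p' : ℝ) * t₁.q', (t₂.p' : ℝ) * t₂.q', (t₃.p' : ℝ) * t₃.q', (t₄.p' : ℝ) * t₄.q']
    ![x₁, x₂, x₃, x₄] ![A₁, A₂, A₃, A₄] ![B₁, B₂, B₃, B₄]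
  simp only [Matrix.cons_val] at hD
  rw [a7, b7, c7, d7, hD] at hcast
  have hdet : |Matrix.det (Matrix.of ![![A₁, x₁, B₁, 1], ![A₂, x₂, B₂, 1], ![A₃, x₃, B₃, 1],
        ![A₄, x₄, B₄, 1]])| ≤ 24 * ((5 * L ^ 2 + Θ) * L * (3 * L ^ 3 + Θ)) :=
    red_bound a3 a1 a2 a4 b3 b1 b2 b4 c3 c1 c2 c4 d3 d1 d2 d4
  have hW : ∀ t ∈ T, (t.p' : ℝ) * t.q' ≤ 256 * (s.p' * s.q') := by
    intro t ht
    obtain ⟨hsol, hnear⟩ := hT t ht
    have h1 : (t.p' : ℝ) ≤ 16 * s.p' := by exact_mod_cast hnear.p'_le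
    have h2 : (t.q' : ℝ) ≤ 16 * s.q' := by exact_mod_cast hnear.q'_le
    have hp' : (0 : ℝ) < (t.p' : ℝ) := by exact_mod_cast hsol.p'_pos
    have hq' : (0 : ℝ) < (t.q' : ℝ) := by exact_mod_cast hsol.q'_pos
    calc (t.p' : ℝ) * t.q' ≤ (16 * s.p') * (16 * s.q') := by gcongr
      _ = 256 * (s.p' * s.q') := by ring
  have hW0 : ∀ t ∈ T, (0 : ℝ) < (t.p' : ℝ) * t.q' := by
    intro t ht
    have hp' : (0 : ℝ) < (t.p' : ℝ) := by exact_mod_cast (hT t ht).1.p'_pos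
    have hq' : (0 : ℝ) < (t.q' : ℝ) := by exact_mod_cast (hT t ht).1.q'_pos
    positivity
  have w1 := hW0 t₁ ht₁
  have w2 := hW0 t₂ ht₂
  have w3 := hW0 t₃ ht₃
  have w4 := hW0 t₄ ht₄
  have hWW : (t₁.p' : ℝ) * t₁.q' * (t₂.p' * t₂.q') * (t₃.p' * t₃.q') * (t₄.p' * t₄.q') ≤
      (256 * (s.p' * s.q')) ^ 4 := by
    have v1 := hW t₁ ht₁
    have v2 := hW t₂ ht₂
    have v3 := hW t₃ ht₃
    have v4 := hW t₄ ht₄
    have v0 : (0 : ℝ) < 256 * (s.p' * s.q') := by positivity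
    calc (t₁.p' : ℝ) * t₁.q' * (t₂.p' * t₂.q') * (t₃.p' * t₃.q') * (t₄.p' * t₄.q')
        ≤ (256 * (s.p' * s.q')) * (256 * (s.p' * s.q')) * (256 * (s.p' * s.q')) *
          (256 * (s.p' * s.q')) := by
          apply mul_le_mul _ v4 w4.le (by positivity)
          apply mul_le_mul _ v3 w3.le (by positivity)
          exact mul_le_mul v1 v2 w2.le (by positivity)
      _ = (256 * (s.p' * s.q')) ^ 4 := by ring
  obtain ⟨hsol1, hnear1⟩ := hT t₁ ht₁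
  have hfront := front (W := (t₁.p' : ℝ) * t₁.q' * (t₂.p' * t₂.q') * (t₃.p' * t₃.q') *
      (t₄.p' * t₄.q')) (P := s.p) (P' := s.p') (Q := s.q) (Q' := s.q') (u := u)
    hMR hNR hτ (p := t₁.p) (p' := t₁.p') (q := t₁.q) (q' := t₁.q')
    (by exact_mod_cast hsol1.p_pos) (by exact_mod_cast hsol1.p'_pos)
    (by exact_mod_cast hsol1.q_pos) (by exact_mod_cast hsol1.q'_pos) hP hP' hQ hQ'
    (by positivity) hWW (by exact_mod_cast hnear1.p_le) (by exact_mod_cast hnear1.p'_ge)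
    (by exact_mod_cast hnear1.q_le) (by exact_mod_cast hnear1.q'_ge) a5
    (by exact_mod_cast hsol1.eq) a6
  rw [← hYval] at hfront
  have hnum := num huR hc0 hg1 hy1 hlam hLval hΘ (by rw [hy3]; exact hprod)
  have habs : |((Matrix.det (Matrix.of ![t₁.vec, t₂.vec, t₃.vec, t₄.vec]) : ℤ) : ℝ)| < 1 := by
    rw [hcast, abs_mul]
    have hpos : 0 ≤ (t₁.p' : ℝ) * t₁.q' * (t₂.p' * t₂.q') * (t₃.p' * t₃.q') *
      (t₄.p' * t₄.q') * (N / M : ℝ) ^ 2 * τ⁻¹ ^ 5 * τ := by positivity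
    rw [abs_of_nonneg hpos]
    calc (t₁.p' : ℝ) * t₁.q' * (t₂.p' * t₂.q') * (t₃.p' * t₃.q') *
      (t₄.p' * t₄.q') * (N / M : ℝ) ^ 2 * τ⁻¹ ^ 5 * τ * |_|
        ≤ 2 ^ 70 * Y ^ 2 * (24 * ((5 * L ^ 2 + Θ) * L * (3 * L ^ 3 + Θ))) :=
          mul_le_mul hfront hdet (abs_nonneg _) (by positivity)
      _ = 24 * 2 ^ 70 * ((5 * L ^ 2 + Θ) * L * (3 * L ^ 3 + Θ)) * y ^ 6 := by
          rw [← hy3]
          ring
      _ < 1 := hnum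
  have : |Matrix.det (Matrix.of ![t₁.vec, t₂.vec, t₃.vec, t₄.vec])| < 1 := by
    exact_mod_cast habs
  exact Int.abs_lt_one_iff.mp this

end Pool.Agent.W118.FX
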